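import Mathlib
import Pool.Agent.H46.Hyp.Defs
import Pool.Agent.H46.Hyp.Bound
import Pool.Agent.H36.HY.Main
import Pool.Agent.H36.HY.FourB

namespace Pool.Agent.Results.MP_106b1a_co.DegreeNotMultipleOfEight

open Configuration Polynomial Pool.Agent.H46.Hyp Pool.Agent.H53.OM Pool.Agent.H36.HY
open scoped LinearAlgebra.Projectivization

/-- Let `K` be a field with `2 ^ n` elements and let `f` be an o-polynomial of `K` with `f 0 = 0`,
`f 1 = 1` whose degree `d` is not divisible by `8` and satisfies `2 * ⌊log₂ d⌋ + 4 ≤ n`. Then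
`f = X ^ 2` or `f = X ^ 4` or `f` is equivalent to `X ^ 6`. -/
theorem result (K : Type) [Field K] [Fintype K] [DecidableEq K] (n : ℕ)
    (hK : Fintype.card K = 2 ^ n) (f : K[X]) (h0 : f.eval 0 = 0) (h1 : f.eval 1 = 1)
    (hd8 : ¬ 8 ∣ f.natDegree) (hn : 2 * Nat.log 2 f.natDegree + 4 ≤ n)
    (hH : IsHyperoval (ℙ K (Fin 3 → K)) (ℙ K (Fin 3 → K)) (oSet K fun x => f.eval x)) :
    f = X ^ 2 ∨ f = X ^ 4 ∨
      ∃ a : K, f = C (((1 + a) ^ 6 + a ^ 6)⁻¹) * ((X + C a) ^ 6 + C (a ^ 6)) := by
  obtain ⟨L, hL⟩ : ∃ L, Nat.log 2 f.natDegree = L := ⟨_, rfl⟩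
  rw [hL] at hn
  have hd0 : f.natDegree ≠ 0 := by
    intro h
    exact hd8 (by rw [h]; exact dvd_zero 8)
  have hLle : 2 ^ L ≤ f.natDegree := by rw [← hL]; exact Nat.pow_log_le_self 2 hd0
  have hLlt : f.natDegree < 2 ^ (L + 1) := by
    rw [← hL]; exact Nat.lt_pow_succ_log_self (by norm_num) _
  have hp : 2 ^ (L + 1) = 2 * 2 ^ L := by rw [pow_succ]; ring
  have hp3 : 2 ^ (L + 1) + 2 ≤ 2 ^ n := by
    have h2 : 2 ^ (L + 2) ≤ 2 ^ n := Nat.pow_le_pow_right (by norm_num) (by omega)
    have h3 : 2 ^ (L + 2) = 4 * 2 ^ L := by rw [pow_add]; ring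
    have h4 := Nat.one_le_two_pow (n := L)
    omega
  have hodd := odd_coeff_eq_zero (by omega) hK f (by omega) hH.2
  have hc0 : f.coeff 0 = 0 := by rw [coeff_zero_eq_eval_zero]; exact h0
  have heven : f.natDegree % 2 = 0 := by
    by_contra hcon
    have h2 := hodd f.natDegree (by omega)
    rw [coeff_natDegree, leadingCoeff_eq_zero] at h2
    rw [h2, natDegree_zero] at hd0
    exact hd0 rfl
  have hL4 : ∀ k, 2 ^ k ≤ f.natDegree → k ≤ L := by
    intro k hk
    by_contra hcon
    have : 2 ^ (L + 1) ≤ 2 ^ k := Nat.pow_le_pow_right (by norm_num) (by omega)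
    omega
  rcases Nat.lt_or_ge f.natDegree 10 with hlt | hge
  · have hcases : f.natDegree = 2 ∨ f.natDegree = 4 ∨ f.natDegree = 6 := by omega
    rcases hcases with hd | hd | hd
    · left
      have hf : f = C (f.coeff 2) * X ^ 2 := by
        conv_lhs => rw [f.as_sum_range' 3 (by rw [hd]; norm_num)]
        simp only [Finset.sum_range_succ, Finset.range_zero, Finset.sum_empty, zero_add]
        rw [hc0, hodd 1 (by norm_num)]
        simp only [monomial_zero_right, zero_add]
        rw [← C_mul_X_pow_eq_monomial]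
      have h2 : f.coeff 2 = 1 := by
        rw [hf] at h1
        simpa using h1
      rw [h2, C_1, one_mul] at hf
      exact hf
    · right; left
      exact deg_four (by omega) hK f h0 h1 hd hH.2
    · right; right
      have := hL4 2 (by omega)
      exact deg_six (by omega) hK f h0 h1 hd hH.2
  · exfalso
    have hL3 := hL4 3 (by omega)
    rcases (by omega : f.natDegree % 4 = 2 ∨ f.natDegree % 8 = 4) with h4 | h4
    · -- degree `2 m`
      obtain ⟨m, hm⟩ : ∃ m, f.natDegree = 2 * m := ⟨f.natDegree / 2, by omega⟩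
      have hne : 2 ^ L ≠ 2 * m := by
        intro h
        obtain ⟨t, rfl⟩ : ∃ t, L = t + 2 := ⟨L - 2, by omega⟩
        have : 2 ^ (t + 2) = 4 * 2 ^ t := by rw [pow_add]; ring
        omega
      have hw := walk_two (L := L) (m := m) (n := n) (by omega) (by omega) (by omega) (by omega)
        hn
      exact not_hyperoval_of_walk (by omega) hK f hm (by omega) (by omega) (by omega) hw hH
    · -- degree `4 m`
      obtain ⟨m, hm⟩ : ∃ m, f.natDegree = 2 * (2 * m) := ⟨f.natDegree / 4, by omega⟩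
      have hne : 2 ^ L ≠ 2 * (2 * m) := by
        intro h
        obtain ⟨t, rfl⟩ : ∃ t, L = t + 3 := ⟨L - 3, by omega⟩
        have : 2 ^ (t + 3) = 8 * 2 ^ t := by rw [pow_add]; ring
        omega
      have hw := walk_four (L := L) (m := m) (n := n) (by omega) (by omega) (by omega) (by omega)
        (by omega)
      exact not_hyperoval_of_walk (by omega) hK f hm (by omega) (by omega) (by omega) hw hH

end Pool.Agent.Results.MP_106b1a_co.DegreeNotMultipleOfEight
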