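import Mathlib
import Pool.Agent.H46.Hyp.Defs
import Pool.Agent.H46.Hyp.Bound
import Pool.Agent.H49.HO.Main3
import Pool.Agent.H49.HO.Image

namespace Pool.Agent.Results.MP_106b1a_co.ElationGroups

open Configuration Pool.Agent.H46.Hyp Pool.Agent.H49.HO
open scoped LinearAlgebra.Projectivization MatrixGroups Pointwise

/-- Let `K` be a field with `2 ^ n` elements.

(1) Let `f` be an o-polynomial (as a function) with `f 0 = 0`. A period of `f` is a `v` with
`f (x + v) = f x + f v` for all `x`. For every period `v ≠ 0` there is a subfield `F` of `K` with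
`2 ^ m` elements, `m ∣ n`, such that `v F` is the set of all periods of `f`,
`f (v x) = f v * x ^ (2 ^ i)` for `x` in `F`, and `m = n` (then `f` is `c * x ^ (2 ^ i)`) or
`3 m ≤ n`. For `b ≠ 0` the set of all `f x + b x` is closed under addition if and only if
`b = f v / v` for a period `v ≠ 0`.

(2) Let `H` be a hyperoval of the plane over `K` such that `2 ^ k` divides the order of the
stabilizer of `H` in `PGL(3, K)`. Then `H` is equivalent under `PGL(3, K)` to the translation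
hyperoval of some `x ^ (2 ^ i)`, or `k ≤ 1`, or `k = 2` and `n` is even, or `k ≤ m` for a
divisor `m ≥ 3` of `n` with `3 m ≤ n`. -/
theorem result (K : Type) [Field K] [Fintype K] [DecidableEq K] (n : ℕ) (hn : 0 < n)
    (hK : Fintype.card K = 2 ^ n) :
    (∀ f : K → K, IsHyperoval (ℙ K (Fin 3 → K)) (ℙ K (Fin 3 → K)) (oSet K f) → f 0 = 0 →
      (∀ v : K, v ≠ 0 → (∀ x, f (x + v) = f x + f v) →
        ∃ (F : Subfield K) (m i : ℕ), m ∣ n ∧ Nat.card F = 2 ^ m ∧ (m = n ∨ 3 * m ≤ n) ∧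
          (∀ x, (∀ y, f (y + v * x) = f y + f (v * x)) ↔ x ∈ F) ∧
          ∀ x ∈ F, f (v * x) = f v * x ^ 2 ^ i) ∧
      ∀ b : K, b ≠ 0 → ((∀ x y, ∃ z, f z + b * z = (f x + b * x) + (f y + b * y)) ↔
        ∃ v, v ≠ 0 ∧ (∀ x, f (x + v) = f x + f v) ∧ b = f v / v)) ∧
    ∀ H : Finset (ℙ K (Fin 3 → K)), IsHyperoval (ℙ K (Fin 3 → K)) (ℙ K (Fin 3 → K)) H →
      ∀ k : ℕ, 2 ^ k ∣ Nat.card (MulAction.stabilizer PGL(3, K) (H : Set (ℙ K (Fin 3 → K)))) →
      (∃ (g : PGL(3, K)) (i : ℕ), g • (H : Set (ℙ K (Fin 3 → K))) =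
        (oSet K fun x => x ^ 2 ^ i : Finset (ℙ K (Fin 3 → K)))) ∨
      k ≤ 1 ∨ (k = 2 ∧ 2 ∣ n) ∨ ∃ m, 3 ≤ m ∧ m ∣ n ∧ 3 * m ≤ n ∧ k ≤ m := by
  have hchar : CharP K 2 := charP_two hn hK
  refine ⟨?_, fun H hH k hk => main3 hn hK hH hk⟩
  intro f hf h0
  have hO := isO_of_arc hf.2 h0
  refine ⟨?_, fun b hb => closed_iff hO hn hK hb⟩
  intro v hv0 hv
  obtain ⟨F, m, i, h1, _, h2, h3, h4, h5⟩ := periods hO hn hK hv0 hv
  exact ⟨F, m, i, h1, h2, h5, h3, h4⟩

end Pool.Agent.Results.MP_106b1a_co.ElationGroups
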