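import Mathlib
import Pool.Agent.H46.Hyp.Defs
import Pool.Agent.H46.Hyp.Count
import Pool.Agent.H46.Hyp.Bound

namespace Pool.Agent.Results.MP_106b1a_co.HyperovalCount

open Configuration Pool.Agent.H46.Hyp
open scoped LinearAlgebra.Projectivization

/-- Hyperovals (arcs with `q + 2` points) of a finite projective plane of order `q`.

1. Every hyperoval `H` has a subset `S` of at most `2⌈√(2(q+2) log q)⌉` points such that every arc
   containing `S` is contained in `H`; so `H` is the only complete arc (in particular the only
   hyperoval) containing `S`.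
2. The plane has at most `exp(18 √q (log q)^{3/2})` hyperovals.
3. For a finite field `K` with `q` elements the points `ℙ K (Fin 3 → K)` and the lines (given by
   their coordinates, with incidence `Projectivization.orthogonal`) form a projective plane of
   order `q`, so 1. and 2. apply to it.
4. At most `exp(18 √q (log q)^{3/2})` of the `q ^ q` maps `f : K → K` (polynomials of degree less
   than `q`) are o-polynomials, i.e. have `{(f(c) : c : 1)} ∪ {(1 : 0 : 0), (0 : 1 : 0)}` a
   hyperoval. -/
theorem result :
    (∀ (P L : Type) [Membership P L] [ProjectivePlane P L] [Fintype P] [Fintype L]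
      (H : Finset P), IsHyperoval P L H →
      ∃ S ⊆ H,
        S.card ≤ 2 * ⌈Real.sqrt (2 * ((ProjectivePlane.order P L : ℝ) + 2) *
          Real.log (ProjectivePlane.order P L))⌉₊ ∧
        ∀ A : Finset P, IsArc P L A → S ⊆ A → A ⊆ H) ∧
    (∀ (P L : Type) [Membership P L] [ProjectivePlane P L] [Fintype P] [Fintype L],
      ({H : Finset P | IsHyperoval P L H}.ncard : ℝ) ≤
        Real.exp (18 * Real.sqrt (ProjectivePlane.order P L) *
          Real.log (ProjectivePlane.order P L) ^ (3 / 2 : ℝ))) ∧
    (∀ (K : Type) [Field K] [Fintype K] [DecidableEq K],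
      ProjectivePlane.order (ℙ K (Fin 3 → K)) (ℙ K (Fin 3 → K)) = Fintype.card K) ∧
    (∀ (K : Type) [Field K] [Fintype K] [DecidableEq K],
      ({f : K → K |
        IsHyperoval (ℙ K (Fin 3 → K)) (ℙ K (Fin 3 → K)) (oSet K f)}.ncard : ℝ) ≤
        Real.exp (18 * Real.sqrt (Fintype.card K) *
          Real.log (Fintype.card K) ^ (3 / 2 : ℝ))) := by
  refine ⟨?_, ?_, ?_, ?_⟩
  · intro P L _ _ _ _ H hH
    classical
    exact small_complete hH
  · intro P L _ _ _ _
    exact ncard_hyperovals_le P L
  · intro K _ _ _
    exact order_eq K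
  · intro K _ _ _
    exact ncard_oPoly_le K

end Pool.Agent.Results.MP_106b1a_co.HyperovalCount
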