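import Mathlib
import Pool.Agent.H46.Hyp.Defs
import Pool.Agent.H46.Hyp.Bound
import Pool.Agent.H36.HY.Main
import Pool.Agent.H36.HY.FourB
import Pool.Agent.H36.HZ.Main

namespace Pool.Agent.Results.MP_106b1a_co.MonomialsCubeRoot

open Configuration Polynomial Pool.Agent.H46.Hyp Pool.Agent.H53.OM Pool.Agent.H36.HY
open Pool.Agent.H36.HZ
open scoped LinearAlgebra.Projectivization

/-- Let `K` be a field with `2 ^ n` elements and `f` an o-polynomial of `K` of degree
`k = 2 ^ a * m`, `m` odd, in which only powers of `x ^ (2 ^ a)` occur (e.g. `f = x ^ k`). If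
`3 * ⌊log₂ k⌋ < n`, then `k` is a power of two or `k = 6`. The same holds if
`2 * ⌊log₂ k⌋ + 4 ≤ n` and the numbers `⌊m / 2 ^ p⌋` (only `p = 0` if `m` is not `1 mod 2 ^ a`) are
not inverses of `2 ^ i + 1` modulo `2 ^ a`, `1 ≤ i ≤ a - 2`. -/
theorem result (K : Type) [Field K] [Fintype K] [DecidableEq K] (n : ℕ)
    (hK : Fintype.card K = 2 ^ n) (f : K[X]) (a m : ℕ) (hm : Odd m)
    (hdeg : f.natDegree = 2 ^ a * m) (hsupp : ∀ e, f.coeff e ≠ 0 → 2 ^ a ∣ e)
    (hn : 3 * Nat.log 2 f.natDegree < n ∨ (2 * Nat.log 2 f.natDegree + 4 ≤ n ∧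
      ∀ p i, (p = 0 ∨ m % 2 ^ a = 1) → 1 ≤ i → i + 2 ≤ a →
        (m / 2 ^ p * (2 ^ i + 1)) % 2 ^ a ≠ 1))
    (hH : IsHyperoval (ℙ K (Fin 3 → K)) (ℙ K (Fin 3 → K)) (oSet K fun x => f.eval x)) :
    m = 1 ∨ (a = 1 ∧ m = 3) := by
  by_contra hcon
  push Not at hcon
  obtain ⟨hm1, hm3⟩ := hcon
  have hodd : m % 2 = 1 := Nat.odd_iff.1 hm
  have h3 : 3 ≤ m := by omega
  obtain ⟨l, hl⟩ : ∃ l, Nat.log 2 m = l := ⟨_, rfl⟩
  have h2l : 2 ^ l ≤ m := by rw [← hl]; exact Nat.pow_log_le_self 2 (by omega)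
  have h2l1 : m < 2 ^ (l + 1) := by
    rw [← hl]; exact Nat.lt_pow_succ_log_self (by norm_num) _
  have hl1 : 1 ≤ l := by
    by_contra hc
    have : l = 0 := by omega
    subst this
    norm_num at h2l1
    omega
  have hlt : 2 ^ l < m := by
    rcases Nat.lt_or_eq_of_le h2l with h | h
    · exact h
    · exfalso
      obtain ⟨j, rfl⟩ : ∃ j, l = j + 1 := ⟨l - 1, by omega⟩
      rw [pow_succ] at h
      omega
  have hL : Nat.log 2 f.natDegree = a + l := by
    rw [hdeg]
    apply Nat.log_eq_of_pow_le_of_lt_pow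
    · rw [pow_add]; exact Nat.mul_le_mul_left _ h2l
    · rw [show a + l + 1 = a + (l + 1) by ring, pow_add]
      exact Nat.mul_lt_mul_of_pos_left h2l1 (by positivity)
  rw [hL] at hn
  have hn0 : 2 * (a + l) + 1 ≤ n ∧ 0 < n := by omega
  have hdlt : f.natDegree + 2 ≤ 2 ^ n := by
    have h4 : 2 ^ (a + l + 1) ≤ 2 ^ (n - 1) := Nat.pow_le_pow_right (by norm_num) (by omega)
    have h5 : 2 ^ n = 2 * 2 ^ (n - 1) := by rw [← pow_succ', Nat.sub_add_cancel (by omega)]
    have h6 : f.natDegree < 2 ^ (a + l + 1) := by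
      rw [← hL]; exact Nat.lt_pow_succ_log_self (by norm_num) _
    omega
  rcases (by omega : a = 0 ∨ a = 1 ∨ a = 2 ∨ 3 ≤ a) with ha | ha | ha | ha
  · -- odd degree
    subst ha
    rw [pow_zero, one_mul] at hdeg
    have h4 := odd_coeff_eq_zero (by omega) hK f (by omega) hH.2 f.natDegree (by omega)
    rw [coeff_natDegree, leadingCoeff_eq_zero] at h4
    rw [h4, natDegree_zero] at hdeg
    omega
  · -- degree `2 m`
    subst ha
    rw [pow_one] at hdeg
    have h5 : 5 ≤ m := by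
      have := hm3 rfl
      omega
    have hl2 : 2 ≤ l := by
      by_contra hc
      have : l = 1 := by omega
      subst this
      norm_num at h2l1
      omega
    have e1 : 2 ^ (l + 1) = 2 * 2 ^ l := by rw [pow_succ]; ring
    have hw := walk_two (L := l + 1) (m := m) (n := n) hodd h5 (by omega) h2l1 (by omega)
    exact not_hyperoval_of_walk (by omega) hK f hdeg (by omega) (by omega) (by omega) hw hH
  · -- degree `4 m`
    subst ha
    have e1 : 2 ^ (l + 1) = 2 * 2 ^ l := by rw [pow_succ]; ring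
    have e2 : 2 ^ (l + 2) = 2 * 2 ^ (l + 1) := by rw [pow_succ]; ring
    have hdeg4 : f.natDegree = 2 * (2 * m) := by rw [hdeg]; ring
    have hw := walk_four (L := l + 2) (m := m) (n := n) hodd h3 (by omega) (by omega) (by omega)
    exact not_hyperoval_of_walk (by omega) hK f hdeg4 (by omega) (by omega) (by omega) hw hH
  · -- degree `2 ^ a m` with `a ≥ 3`
    obtain ⟨b, rfl⟩ : ∃ b, a = b + 1 := ⟨a - 1, by omega⟩
    obtain ⟨v, hv0, hv, hw⟩ := walk_main (b := b) (m := m) (l := l) (n := n) (by omega) hodd h3 hlt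
      h2l1 (by
        rcases hn with hn | ⟨hn, hs⟩
        · left; omega
        · right
          exact ⟨by omega, fun p i hp hi1 hi2 => hs p i hp hi1 (by omega)⟩)
    have hvd : v + 1 < 2 ^ (b + 1) * m := by
      have h4 : 2 ^ (b + 1) * 3 ≤ 2 ^ (b + 1) * m := Nat.mul_le_mul_left _ h3
      omega
    exact not_hyperoval_of_closed_walk (by omega) hK f hdeg hsupp hv0 hv hvd hw hH

end Pool.Agent.Results.MP_106b1a_co.MonomialsCubeRoot
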